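import Mathlib

namespace Pool.Agent.Results.MP_0f5321_co.No

/-- A cell of the board is given by its lower left corner. -/
abbrev Cell := ℤ × ℤ

/-- squared Euclidean distance -/
def d2 (p q : Cell) : ℤ := (p.1 - q.1) ^ 2 + (p.2 - q.2) ^ 2

/-- Two cells are adjacent when they share an edge. -/
def Adj (p q : Cell) : Prop := d2 p q = 1

/-- Congruences of the board: distance preserving maps
(translations, rotations, reflections of the grid). -/
def Iso (g : Cell → Cell) : Prop := ∀ p q, d2 (g p) (g q) = d2 p q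

/-- A finite polyomino: nonempty finite set of cells connected through adjacent cells. -/
def IsPoly (P : Finset Cell) : Prop :=
  P.Nonempty ∧ ∀ c ∈ P, ∀ d ∈ P,
    Relation.ReflTransGen (fun x y => x ∈ P ∧ y ∈ P ∧ Adj x y) c d

def Cong (P Q : Finset Cell) : Prop := ∃ g, Iso g ∧ P.image g = Q

/-- `P` is an ancestor of `Q` -/
def Anc (P Q : Finset Cell) : Prop := ∃ g, Iso g ∧ P.image g ⊆ Q

/-- A bounded team (elements taken up to congruence). -/
def IsTeam (F : Set (Finset Cell)) : Prop :=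
  (∀ P ∈ F, IsPoly P) ∧ ∀ P ∈ F, ∀ Q ∈ F, Anc P Q → Cong P Q

/-- The list of the first `n` moves of the breaker, latest first. -/
def hist (β : ℕ → Cell × Cell) : ℕ → List (Cell × Cell)
  | 0 => []
  | n + 1 => β n :: hist β n

/-- The cell the maker marks in turn `n` when he follows `σ` and the breaker plays `β`. -/
def mv (σ : List (Cell × Cell) → Cell) (β : ℕ → Cell × Cell) (n : ℕ) : Cell := σ (hist β n)

/-- In turn `n` the maker marks an unmarked cell. -/
def MakerLegal (σ : List (Cell × Cell) → Cell) (β : ℕ → Cell × Cell) (n : ℕ) : Prop :=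
  ∀ i < n, mv σ β n ≠ mv σ β i ∧ mv σ β n ≠ (β i).1 ∧ mv σ β n ≠ (β i).2

/-- In turn `n` the breaker marks two different unmarked cells. -/
def BreakerLegal (σ : List (Cell × Cell) → Cell) (β : ℕ → Cell × Cell) (n : ℕ) : Prop :=
  (β n).1 ≠ (β n).2 ∧ (∀ i ≤ n, (β n).1 ≠ mv σ β i ∧ (β n).2 ≠ mv σ β i) ∧
    ∀ i < n, (β n).1 ≠ (β i).1 ∧ (β n).1 ≠ (β i).2 ∧ (β n).2 ≠ (β i).1 ∧ (β n).2 ≠ (β i).2

/-- The maker has a strategy which, against every legal play of the breaker, legally marks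
at some finite stage a congruent copy of an element of `F`. -/
def Winner (F : Set (Finset Cell)) : Prop :=
  ∃ σ : List (Cell × Cell) → Cell, ∀ β : ℕ → Cell × Cell, (∀ n, BreakerLegal σ β n) →
    ∃ n, (∀ i < n, MakerLegal σ β i) ∧
      ∃ P ∈ F, ∃ g, Iso g ∧ ∀ p ∈ P, ∃ i < n, g p = mv σ β i

/-! ### the breaker's paving strategy -/

def marked (σ : List (Cell × Cell) → Cell) : List (Cell × Cell) → Finset Cell
  | [] => {σ []}
  | b :: h => insert (σ (b :: h)) (insert b.1 (insert b.2 (marked σ h)))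

lemma exists_reply (S : Finset Cell) (p1 p2 : Cell) :
    ∃ b : Cell × Cell, b.1 ≠ b.2 ∧ b.1 ∉ S ∧ b.2 ∉ S ∧
      (p1 ∈ S ∨ p1 = b.1 ∨ p1 = b.2) ∧ (p2 ∈ S ∨ p2 = b.1 ∨ p2 = b.2) := by
  have h1 : ∃ b1, b1 ∉ S ∧ (p1 ∈ S ∨ p1 = b1) := by
    by_cases h : p1 ∈ S
    · obtain ⟨x, hx⟩ := Infinite.exists_notMem_finset S
      exact ⟨x, hx, Or.inl h⟩
    · exact ⟨p1, h, Or.inr rfl⟩
  obtain ⟨b1, hb1, h1⟩ := h1
  by_cases h : p2 ∈ insert b1 S
  · obtain ⟨x, hx⟩ := Infinite.exists_notMem_finset (insert b1 S)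
    simp only [Finset.mem_insert, not_or] at hx h
    refine ⟨(b1, x), fun e => hx.1 e.symm, hb1, hx.2, by tauto, by tauto⟩
  · simp only [Finset.mem_insert, not_or] at h
    refine ⟨(b1, p2), fun e => h.1 e.symm, hb1, h.2, by tauto, by tauto⟩

lemma mem_marked (σ : List (Cell × Cell) → Cell) (β : ℕ → Cell × Cell) (n : ℕ) (x : Cell) :
    x ∈ marked σ (hist β n) ↔
      (∃ i ≤ n, x = mv σ β i) ∨ ∃ i < n, x = (β i).1 ∨ x = (β i).2 := by
  induction n with
  | zero => simp [hist, marked, mv]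
  | succ n ih =>
    simp only [hist, marked, Finset.mem_insert, ih]
    constructor
    · rintro (h | h | h | ⟨i, hi, h⟩ | ⟨i, hi, h⟩)
      · exact Or.inl ⟨n + 1, le_rfl, h⟩
      · exact Or.inr ⟨n, by omega, Or.inl h⟩
      · exact Or.inr ⟨n, by omega, Or.inr h⟩
      · exact Or.inl ⟨i, by omega, h⟩
      · exact Or.inr ⟨i, by omega, h⟩
    · rintro (⟨i, hi, h⟩ | ⟨i, hi, h⟩)
      · rcases hi.eq_or_lt with rfl | hi
        · exact Or.inl h
        · exact Or.inr (Or.inr (Or.inr (Or.inl ⟨i, by omega, h⟩)))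
      · rcases (Nat.lt_succ_iff.mp hi).eq_or_lt with rfl | hi
        · rcases h with h | h
          · exact Or.inr (Or.inl h)
          · exact Or.inr (Or.inr (Or.inl h))
        · exact Or.inr (Or.inr (Or.inr (Or.inr ⟨i, hi, h⟩)))

lemma paving {F : Set (Finset Cell)} (hW : Winner F) (R : Cell → Cell → Prop)
    (hsymm : ∀ c d, R c d → R d c) (hirr : ∀ c, ¬ R c c)
    (htwo : ∀ c, ∃ p1 p2, ∀ d, R c d → d = p1 ∨ d = p2) :
    ∃ P ∈ F, ∃ g, Iso g ∧ ∀ p ∈ P, ∀ q ∈ P, ¬ R (g p) (g q) := by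
  obtain ⟨σ, hσ⟩ := hW
  choose p1 p2 hp using htwo
  choose rep hrep using exists_reply
  let step : List (Cell × Cell) → Cell × Cell :=
    fun h => rep (marked σ h) (p1 (σ h)) (p2 (σ h))
  let H : ℕ → List (Cell × Cell) := fun n => Nat.rec [] (fun _ h => step h :: h) n
  let β : ℕ → Cell × Cell := fun n => step (H n)
  have hH : ∀ n, hist β n = H n := by
    intro n
    induction n with
    | zero => rfl
    | succ n ih => simp only [hist, ih]; rfl
  have hβ : ∀ n, β n = rep (marked σ (hist β n)) (p1 (mv σ β n)) (p2 (mv σ β n)) := by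
    intro n
    simp only [mv, hH]; rfl
  have key : ∀ n, (β n).1 ≠ (β n).2 ∧ (β n).1 ∉ marked σ (hist β n) ∧
      (β n).2 ∉ marked σ (hist β n) ∧ ∀ d, R (mv σ β n) d →
        d ∈ marked σ (hist β n) ∨ d = (β n).1 ∨ d = (β n).2 := by
    intro n
    obtain ⟨h1, h2, h3, h4, h5⟩ := hrep (marked σ (hist β n)) (p1 (mv σ β n)) (p2 (mv σ β n))
    rw [← hβ n] at h1 h2 h3 h4 h5
    refine ⟨h1, h2, h3, fun d hd => ?_⟩
    rcases hp _ d hd with rfl | rfl
    · exact h4
    · exact h5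
  obtain ⟨n, hleg, P, hP, g, hg, hin⟩ := hσ β (by
    intro n
    obtain ⟨h1, h2, h3, -⟩ := key n
    rw [mem_marked] at h2 h3
    push Not at h2 h3
    exact ⟨h1, fun i hi => ⟨h2.1 i hi, h3.1 i hi⟩,
      fun i hi => ⟨(h2.2 i hi).1, (h2.2 i hi).2, (h3.2 i hi).1, (h3.2 i hi).2⟩⟩)
  have main : ∀ i j, i < j → j < n → ¬ R (mv σ β i) (mv σ β j) := by
    intro i j hij hj hR
    have hl := hleg j hj
    rcases (key i).2.2.2 _ hR with h | h | h
    · rw [mem_marked] at h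
      rcases h with ⟨k, hk, h⟩ | ⟨k, hk, h | h⟩
      · exact (hl k (by omega)).1 h
      · exact (hl k (by omega)).2.1 h
      · exact (hl k (by omega)).2.2 h
    · exact (hl i hij).2.1 h
    · exact (hl i hij).2.2 h
  refine ⟨P, hP, g, hg, fun p hp q hq hR => ?_⟩
  obtain ⟨i, hi, e1⟩ := hin p hp
  obtain ⟨j, hj, e2⟩ := hin q hq
  rw [e1, e2] at hR
  rcases lt_trichotomy i j with h | rfl | h
  · exact main i j h hj hR
  · exact hirr _ hR
  · exact main j i h hi (hsymm _ _ hR)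

/-! ### geometry -/

lemma adj_iff (p q : Cell) : Adj p q ↔
    (q.1 = p.1 + 1 ∧ q.2 = p.2) ∨ (q.1 = p.1 - 1 ∧ q.2 = p.2) ∨
    (q.1 = p.1 ∧ q.2 = p.2 + 1) ∨ (q.1 = p.1 ∧ q.2 = p.2 - 1) := by
  unfold Adj d2
  constructor
  · intro h
    have h1 : -1 ≤ p.1 - q.1 := by nlinarith [sq_nonneg (p.2 - q.2)]
    have h2 : p.1 - q.1 ≤ 1 := by nlinarith [sq_nonneg (p.2 - q.2)]
    have h3 : -1 ≤ p.2 - q.2 := by nlinarith [sq_nonneg (p.1 - q.1)]
    have h4 : p.2 - q.2 ≤ 1 := by nlinarith [sq_nonneg (p.1 - q.1)]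
    generalize ha : p.1 - q.1 = a at *
    generalize hb : p.2 - q.2 = b at *
    interval_cases a <;> interval_cases b <;> simp at h <;> omega
  · rintro (⟨h1, h2⟩ | ⟨h1, h2⟩ | ⟨h1, h2⟩ | ⟨h1, h2⟩) <;> rw [h1, h2] <;> ring

lemma adj_symm {p q : Cell} (h : Adj p q) : Adj q p := by
  unfold Adj d2 at *; linarith

lemma iso_adj {g : Cell → Cell} (hg : Iso g) {p q : Cell} (h : Adj p q) : Adj (g p) (g q) := by
  unfold Adj at *; rw [hg, h]

lemma iso_inj {g : Cell → Cell} (hg : Iso g) : Function.Injective g := by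
  intro p q h
  have := hg p q
  rw [h] at this
  unfold d2 at this
  have h1 : (p.1 - q.1) ^ 2 = 0 := by nlinarith [sq_nonneg (p.1 - q.1), sq_nonneg (p.2 - q.2)]
  have h2 : (p.2 - q.2) ^ 2 = 0 := by nlinarith [sq_nonneg (p.1 - q.1), sq_nonneg (p.2 - q.2)]
  have h3 := pow_eq_zero_iff (two_ne_zero) |>.mp h1
  have h4 := pow_eq_zero_iff (two_ne_zero) |>.mp h2
  exact Prod.ext (by linarith) (by linarith)

lemma iso_comp {g f : Cell → Cell} (hg : Iso g) (hf : Iso f) : Iso (fun p => g (f p)) :=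
  fun p q => by rw [hg, hf]

lemma conn_inv {P : Finset Cell} (hP : IsPoly P) (I : Cell → Prop) {c : Cell} (hc : c ∈ P)
    (h0 : I c) (hstep : ∀ x ∈ P, ∀ y ∈ P, Adj x y → I x → I y) : ∀ d ∈ P, I d := by
  intro d hd
  have h := hP.2 c hc d hd
  clear hd
  induction h with
  | refl => exact h0
  | tail _ h ih => exact hstep _ h.1 _ h.2.1 h.2.2 ih

/-- every bi-infinite monotone path has an ancestor in a winner -/
lemma stair {F : Set (Finset Cell)} (hF : ∀ P ∈ F, IsPoly P) (hW : Winner F) (a : ℤ → ℤ)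
    (ha : ∀ t, a (t + 1) = a t ∨ a (t + 1) = a t + 1) :
    ∃ P ∈ F, ∃ g, Iso g ∧ ∀ p ∈ P, (g p).1 = a ((g p).1 + (g p).2) := by
  obtain ⟨P, hP, g, hg, h⟩ := paving hW
    (fun c d => Adj c d ∧ c.1 - a (c.1 + c.2) ≠ d.1 - a (d.1 + d.2))
    (fun c d h => ⟨adj_symm h.1, h.2.symm⟩) (fun c h => h.2 rfl) (by
      intro c
      refine ⟨if a (c.1 + c.2 + 1) = a (c.1 + c.2) then (c.1 + 1, c.2) else (c.1, c.2 + 1),
        if a (c.1 + c.2) = a (c.1 + c.2 - 1) then (c.1 - 1, c.2) else (c.1, c.2 - 1), ?_⟩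
      rintro ⟨x, y⟩ ⟨h1, h2⟩
      have e1 := ha (c.1 + c.2)
      have e2 := ha (c.1 + c.2 - 1)
      rw [sub_add_cancel] at e2
      rcases (adj_iff _ _).mp h1 with ⟨rfl, rfl⟩ | ⟨rfl, rfl⟩ | ⟨rfl, rfl⟩ | ⟨rfl, rfl⟩
      · left
        have : c.1 + 1 + c.2 = c.1 + c.2 + 1 := by ring
        simp only [this] at h2
        rw [if_pos (by omega)]
      · right
        have : c.1 - 1 + c.2 = c.1 + c.2 - 1 := by ring
        simp only [this] at h2
        rw [if_pos (by omega)]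
      · left
        have : c.1 + (c.2 + 1) = c.1 + c.2 + 1 := by ring
        simp only [this] at h2
        rw [if_neg (by omega)]
      · right
        have : c.1 + (c.2 - 1) = c.1 + c.2 - 1 := by ring
        simp only [this] at h2
        rw [if_neg (by omega)])
  obtain ⟨c, hc⟩ := (hF P hP).1
  set k := (g c).1 - a ((g c).1 + (g c).2) with hk
  have hall := conn_inv (hF P hP) (fun p => (g p).1 - a ((g p).1 + (g p).2) = k) hc rfl (by
    intro x hx y hy hxy hI
    by_contra hne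
    exact h x hx y hy ⟨iso_adj hg hxy, by rw [hI]; exact fun e => hne e.symm⟩)
  refine ⟨P, hP, fun p => ((g p).1 - k, (g p).2 + k), ?_, fun p hp => ?_⟩
  · intro p q
    rw [← hg p q]; unfold d2; ring
  · have := hall p hp
    have e : (g p).1 - k + ((g p).2 + k) = (g p).1 + (g p).2 := by ring
    simp only [e]
    linarith

/-- compactness -/
lemma stair_unif {F : Set (Finset Cell)} (hF : ∀ P ∈ F, IsPoly P) (hW : Winner F) :
    ∃ K : ℕ, ∀ a : ℤ → ℤ, a 0 = 0 → (∀ t, a (t + 1) = a t ∨ a (t + 1) = a t + 1) →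
      ∃ P ∈ F, ∃ g, Iso g ∧ ∀ p ∈ P, (g p).1 = a ((g p).1 + (g p).2) ∧
        -(K : ℤ) ≤ (g p).1 + (g p).2 ∧ (g p).1 + (g p).2 ≤ K := by
  by_contra hcon
  push Not at hcon
  choose A hA0 hA hbad using hcon
  have hb : ∀ K t, A K t ∈ Finset.Icc (-|t|) |t| := by
    intro K t
    rw [Finset.mem_Icc]
    induction t using Int.induction_on with
    | zero => simp [hA0]
    | succ i ih =>
      have := hA K i
      rw [abs_of_nonneg (by positivity)] at ih ⊢
      omega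
    | pred i ih =>
      have := hA K (-(i : ℤ) - 1)
      rw [sub_add_cancel] at this
      rw [abs_of_nonpos (by omega)] at ih ⊢
      omega
  let U : Ultrafilter ℕ := Filter.hyperfilter ℕ
  have hlim : ∀ t, ∃ v, ∀ᶠ K in (U : Filter ℕ), A K t = v := by
    intro t
    have hfin : (↑(Finset.Icc (-|t|) |t|) : Set ℤ) ∈ U.map (fun K => A K t) := by
      rw [Ultrafilter.mem_map]
      exact Filter.univ_mem' (fun K => by simpa using hb K t)
    obtain ⟨v, -, hv⟩ := Ultrafilter.eq_pure_of_finite_mem (Finset.finite_toSet _) hfin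
    refine ⟨v, ?_⟩
    have : ({v} : Set ℤ) ∈ U.map (fun K => A K t) := by rw [hv]; simp
    rw [Ultrafilter.mem_map] at this
    exact this
  choose a ha using hlim
  obtain ⟨P, hP, g, hg, h⟩ := stair hF hW a (by
    intro t
    obtain ⟨K, h1, h2⟩ := ((ha t).and (ha (t + 1))).exists
    rw [← h1, ← h2]; exact hA K t)
  have h1 : ∀ᶠ K in (U : Filter ℕ), ∀ p ∈ P, A K ((g p).1 + (g p).2) = a ((g p).1 + (g p).2) :=
    (Filter.eventually_all_finset P).mpr (fun p _ => ha _)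
  have h2 : ∀ᶠ K : ℕ in (U : Filter ℕ), ∀ p ∈ P, ((g p).1 + (g p).2).natAbs ≤ K :=
    (Filter.eventually_all_finset P).mpr (fun p _ => by
      apply Filter.Eventually.filter_mono Filter.hyperfilter_le_cofinite
      rw [Nat.cofinite_eq_atTop]
      exact Filter.eventually_ge_atTop _)
  obtain ⟨K, h1, h2⟩ := (h1.and h2).exists
  obtain ⟨p, hp, hb⟩ := hbad K P hP g hg
  have := h2 p hp
  have := hb (by rw [h1 p hp]; exact h p hp) (by omega)
  omega

/-- the U-shaped polyomino with base `m` -/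
def InC (m : ℤ) (q : Cell) : Prop :=
  0 ≤ q.1 ∧ q.1 < m ∧ (q.2 = 0 ∨ (q.2 = 1 ∧ (q.1 = 0 ∨ q.1 = m - 1)))

lemma dvd_eq {m x X : ℤ} (hx : m ∣ x) (hX : m ∣ X) (h1 : X ≤ x) (h2 : x < X + m) : x = X := by
  have := Int.eq_zero_of_dvd_of_nonneg_of_lt (m := x - X) (n := m) (by omega) (by omega)
    (dvd_sub hx hX)
  omega

lemma block {P : Finset Cell} (hP : IsPoly P) (g : Cell → Cell) (hg : Iso g) (m : ℤ)
    (hbox : ∀ p ∈ P, 0 ≤ (g p).1 ∧ (g p).1 < m ∧ 0 ≤ (g p).2 ∧ (g p).2 ≤ 1)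
    (hv : ∀ p ∈ P, ∀ q ∈ P, (g p).1 = (g q).1 → (g p).2 ≠ (g q).2 →
      (g p).1 = 0 ∨ (g p).1 = m - 1)
    {c : Cell} (hc : c ∈ P) (hc1 : (g c).1 ≠ 0) (hc2 : (g c).1 ≠ m - 1) (hc3 : (g c).2 = 0) :
    ∀ p ∈ P, InC m (g p) := by
  have hcb := hbox c hc
  have hall := conn_inv hP (fun p => ((g p).2 = 0 ∨ (g p).1 = 0 ∨ (g p).1 = m - 1) ∧
    ((∃ q ∈ P, (g q).1 = 1 ∧ (g q).2 = 1) → (g p).1 ≠ 0) ∧
    ((∃ q ∈ P, (g q).1 = m - 2 ∧ (g q).2 = 1) → (g p).1 ≠ m - 1)) hc
    ⟨Or.inl hc3, fun _ => hc1, fun _ => hc2⟩ (by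
      rintro x hx y hy hxy ⟨h1, h2, h3⟩
      have hadj := (adj_iff _ _).mp (iso_adj hg hxy)
      have bx := hbox x hx
      have bY := hbox y hy
      have hxy' := hv x hx y hy
      refine ⟨?_, ?_, ?_⟩
      · by_contra hne
        have e2 : (g y).1 = 1 → (g x).1 ≠ 0 := fun e => h2 ⟨y, hy, e, by omega⟩
        have e3 : (g y).1 = m - 2 → (g x).1 ≠ m - 1 := fun e => h3 ⟨y, hy, e, by omega⟩
        omega
      · rintro ⟨q, hq, e1, e2⟩
        have := h2 ⟨q, hq, e1, e2⟩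
        have := hv x hx q hq
        omega
      · rintro ⟨q, hq, e1, e2⟩
        have := h3 ⟨q, hq, e1, e2⟩
        have := hv x hx q hq
        omega)
  intro p hp
  have := (hall p hp).1
  have := hbox p hp
  unfold InC
  omega

lemma ushape {F : Set (Finset Cell)} (hF : ∀ P ∈ F, IsPoly P) (hW : Winner F) (m : ℤ)
    (hm : 2 ≤ m) : ∃ P ∈ F, ∃ g, Iso g ∧ ∀ p ∈ P, InC m (g p) := by
  have hnd : ∀ x, m ∣ x → ¬ m ∣ x + 1 := by
    intro x h1 h2
    have := Int.le_of_dvd one_pos ((dvd_add_right h1).mp h2)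
    omega
  obtain ⟨P, hP, g, hg, h⟩ := paving hW
    (fun c d => Adj c d ∧ ((c.2 = d.2 ∧ m ∣ max c.1 d.1) ∨
      (c.1 = d.1 ∧ ¬ (c.2 / 2 = d.2 / 2 ∧ (m ∣ c.1 ∨ m ∣ c.1 + 1)))))
    (fun c d h => ⟨adj_symm h.1, by
      rcases h.2 with ⟨h1, h2⟩ | ⟨h1, h2⟩
      · exact Or.inl ⟨h1.symm, by rwa [max_comm]⟩
      · exact Or.inr ⟨h1.symm, by rw [← h1]; tauto⟩⟩)
    (fun c h => by have := (adj_iff _ _).mp h.1; omega) (by
      intro c
      by_cases h1 : m ∣ c.1
      · refine ⟨(c.1 - 1, c.2), (c.1, if c.2 % 2 = 0 then c.2 - 1 else c.2 + 1), ?_⟩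
        rintro ⟨x, y⟩ ⟨h2, h3⟩
        have := hnd _ h1
        rcases (adj_iff _ _).mp h2 with ⟨rfl, rfl⟩ | ⟨rfl, rfl⟩ | ⟨rfl, rfl⟩ | ⟨rfl, rfl⟩
        · simp at h3; tauto
        · exact Or.inl rfl
        · right; simp [h1] at h3; rw [if_neg (by omega)]
        · right; simp [h1] at h3; rw [if_pos (by omega)]
      by_cases h1' : m ∣ c.1 + 1
      · refine ⟨(c.1 + 1, c.2), (c.1, if c.2 % 2 = 0 then c.2 - 1 else c.2 + 1), ?_⟩
        rintro ⟨x, y⟩ ⟨h2, h3⟩
        rcases (adj_iff _ _).mp h2 with ⟨rfl, rfl⟩ | ⟨rfl, rfl⟩ | ⟨rfl, rfl⟩ | ⟨rfl, rfl⟩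
        · exact Or.inl rfl
        · simp at h3; tauto
        · right; simp [h1'] at h3; rw [if_neg (by omega)]
        · right; simp [h1'] at h3; rw [if_pos (by omega)]
      · refine ⟨(c.1, c.2 + 1), (c.1, c.2 - 1), ?_⟩
        rintro ⟨x, y⟩ ⟨h2, h3⟩
        rcases (adj_iff _ _).mp h2 with ⟨rfl, rfl⟩ | ⟨rfl, rfl⟩ | ⟨rfl, rfl⟩ | ⟨rfl, rfl⟩
        · simp at h3; tauto
        · simp at h3
          rcases h3 with h3 | h3
          · exact absurd h3 h1
          · omega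
        · exact Or.inl rfl
        · exact Or.inr rfl)
  obtain ⟨c, hc⟩ := (hF P hP).1
  obtain ⟨X, hX, hX1, hX2⟩ : ∃ X, m ∣ X ∧ X ≤ (g c).1 ∧ (g c).1 < X + m := by
    refine ⟨m * ((g c).1 / m), Dvd.intro _ rfl, ?_, ?_⟩
    · have := Int.emod_nonneg (g c).1 (show m ≠ 0 by omega)
      have := Int.mul_ediv_add_emod (g c).1 m
      omega
    · have := Int.emod_lt_of_pos (g c).1 (show 0 < m by omega)
      have := Int.mul_ediv_add_emod (g c).1 m
      omega
  have hXm : m ∣ X + m := dvd_add hX dvd_rfl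
  have hall := conn_inv (hF P hP)
    (fun p => X ≤ (g p).1 ∧ (g p).1 < X + m ∧ (g p).2 / 2 = (g c).2 / 2) hc ⟨hX1, hX2, rfl⟩ (by
      rintro x hx y hy hxy ⟨h1, h2, h3⟩
      have ha := iso_adj hg hxy
      have hn := h x hx y hy
      simp only [ha, true_and, not_or, not_and] at hn
      rcases (adj_iff _ _).mp ha with ⟨e1, e2⟩ | ⟨e1, e2⟩ | ⟨e1, e2⟩ | ⟨e1, e2⟩
      · have := hn.1 e2.symm
        rw [max_eq_right (by omega)] at this
        have : (g y).1 ≠ X + m := fun e => this (e ▸ hXm)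
        omega
      · have := hn.1 e2.symm
        rw [max_eq_left (by omega)] at this
        have : (g x).1 ≠ X := fun e => this (e ▸ hX)
        omega
      · have := hn.2 e1.symm
        push Not at this
        omega
      · have := hn.2 e1.symm
        push Not at this
        omega)
  have hv : ∀ p ∈ P, ∀ q ∈ P, (g p).1 = (g q).1 → (g p).2 ≠ (g q).2 →
      (g p).1 = X ∨ (g p).1 = X + m - 1 := by
    intro p hp q hq e1 e2
    have b1 := hall p hp
    have b2 := hall q hq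
    have ha : Adj (g p) (g q) := (adj_iff _ _).mpr (by omega)
    have hn := h p hp q hq
    simp only [ha, true_and, not_or, not_and] at hn
    have := hn.2 e1
    push Not at this
    by_cases h5 : m ∣ (g p).1
    · exact Or.inl (dvd_eq h5 hX b1.1 b1.2.1)
    · by_cases e : (g p).1 + 1 < X + m
      · have := dvd_eq (this.2 h5) hX (by omega) e
        omega
      · omega
  set Y := 2 * ((g c).2 / 2) with hY
  by_cases hex : ∃ c ∈ P, (g c).1 ≠ X ∧ (g c).1 ≠ X + m - 1 ∧ (g c).2 = Y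
  · obtain ⟨d, hd, e1, e2, e3⟩ := hex
    have hi : Iso (fun p => ((g p).1 - X, (g p).2 - Y)) := by
      intro p q
      rw [← hg p q]; unfold d2; ring
    refine ⟨P, hP, _, hi, block (hF P hP) _ hi m ?_ ?_ hd ?_ ?_ ?_⟩
    · intro p hp
      have := hall p hp
      simp only; omega
    · intro p hp q hq
      have := hv p hp q hq
      simp only; omega
    all_goals simp only; omega
  · push Not at hex
    refine ⟨P, hP, fun p => ((g p).1 - X, Y + 1 - (g p).2), ?_, fun p hp => ?_⟩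
    · intro p q
      rw [← hg p q]; unfold d2; ring
    · have := hall p hp
      have := hex p hp
      unfold InC
      simp only; omega

/-! ### geodesics -/

lemma exists_chain {P : Finset Cell} {c d : Cell} (hc : c ∈ P)
    (h : Relation.ReflTransGen (fun x y => x ∈ P ∧ y ∈ P ∧ Adj x y) c d) :
    ∃ n, ∃ w : ℕ → Cell, w 0 = c ∧ w n = d ∧ (∀ i ≤ n, w i ∈ P) ∧
      ∀ i < n, Adj (w i) (w (i + 1)) := by
  induction h with
  | refl => exact ⟨0, fun _ => c, rfl, rfl, fun _ _ => hc, fun i hi => by omega⟩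
  | @tail x y _ h ih =>
    obtain ⟨n, w, h0, hn, hP, hA⟩ := ih
    refine ⟨n + 1, fun i => if i ≤ n then w i else y, by simp [h0], by simp, ?_, ?_⟩
    · intro i _
      by_cases e : i ≤ n
      · simp [e, hP i e]
      · simp [e, h.2.1]
    · intro i hi
      by_cases e : i < n
      · simp only [if_pos e.le, if_pos (show i + 1 ≤ n from e)]
        exact hA i e
      · have : i = n := by omega
        subst this
        simp only [le_refl, if_true, if_neg (show ¬ i + 1 ≤ i by omega), hn]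
        exact h.2.2

lemma exists_path {P : Finset Cell} (hP : IsPoly P) {c d : Cell} (hc : c ∈ P) (hd : d ∈ P) :
    ∃ n, ∃ w : ℕ → Cell, w 0 = c ∧ w n = d ∧ (∀ i ≤ n, w i ∈ P) ∧
      (∀ i < n, Adj (w i) (w (i + 1))) ∧ ∀ i j, i < j → j ≤ n → w i ≠ w j := by
  classical
  have hex := exists_chain hc (hP.2 c hc d hd)
  obtain ⟨w, h0, hn, hw, hA⟩ := Nat.find_spec hex
  set n := Nat.find hex with hN
  refine ⟨n, w, h0, hn, hw, hA, fun i j hij hj e => ?_⟩
  apply Nat.find_min hex (m := n - (j - i)) (by omega)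
  refine ⟨fun k => if k ≤ i then w k else w (k + (j - i)), by simp [h0], ?_, ?_, ?_⟩
  · by_cases e1 : n - (j - i) ≤ i
    · have : j = n := by omega
      have e2 : n - (j - i) = i := by omega
      simp only [if_pos e1]
      rw [e2, e, this, hn]
    · simp only [if_neg e1]
      rw [show n - (j - i) + (j - i) = n by omega, hn]
  · intro k hk
    by_cases e1 : k ≤ i
    · simp only [if_pos e1]; exact hw k (by omega)
    · simp only [if_neg e1]; exact hw _ (by omega)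
  · intro k hk
    by_cases e1 : k < i
    · simp only [if_pos e1.le, if_pos (show k + 1 ≤ i from e1)]
      exact hA k (by omega)
    · by_cases e2 : k = i
      · subst e2
        simp only [le_refl, if_true, if_neg (show ¬ k + 1 ≤ k by omega), e]
        rw [show k + 1 + (j - k) = j + 1 by omega]
        exact hA j (by omega)
      · simp only [if_neg (show ¬ k ≤ i by omega), if_neg (show ¬ k + 1 ≤ i by omega)]
        rw [show k + 1 + (j - i) = k + (j - i) + 1 by omega]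
        exact hA _ (by omega)

def U (x y : ℤ) : Prop :=
  (x = 1 ∧ y = 0) ∨ (x = -1 ∧ y = 0) ∨ (x = 0 ∧ y = 1) ∨ (x = 0 ∧ y = -1)

lemma adj_U {p q : Cell} (h : Adj p q) : U (q.1 - p.1) (q.2 - p.2) := by
  have := (adj_iff _ _).mp h
  unfold U; omega

lemma U_perp {dx dy ex ey : ℤ} (hd : U dx dy) (he : U ex ey) (h1 : ¬ (dx = -ex ∧ dy = -ey))
    (h2 : ¬ (ex = dx ∧ ey = dy)) :
    (ex = 0 ∧ dy = 0 ∧ (ey = 1 ∨ ey = -1) ∧ (dx = 1 ∨ dx = -1)) ∨
        (ey = 0 ∧ dx = 0 ∧ (ex = 1 ∨ ex = -1) ∧ (dy = 1 ∨ dy = -1)) := by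
  unfold U at *; omega

lemma U_same {dx dy ex ey fx fy : ℤ}
    (h1 : (ex = 0 ∧ dy = 0 ∧ (ey = 1 ∨ ey = -1) ∧ (dx = 1 ∨ dx = -1)) ∨
        (ey = 0 ∧ dx = 0 ∧ (ex = 1 ∨ ex = -1) ∧ (dy = 1 ∨ dy = -1)))
    (h2 : (fx = 0 ∧ dy = 0 ∧ (fy = 1 ∨ fy = -1) ∧ (dx = 1 ∨ dx = -1)) ∨
        (fy = 0 ∧ dx = 0 ∧ (fx = 1 ∨ fx = -1) ∧ (dy = 1 ∨ dy = -1)))
    (h3 : ¬ (ex = -fx ∧ ey = -fy)) : fx = ex ∧ fy = ey := by
  omega

/-- a self-avoiding path with two opposite steps contains a U-shape -/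
lemma uturn (n : ℕ) (w : ℕ → Cell) (hA : ∀ i < n, Adj (w i) (w (i + 1)))
    (hinj : ∀ i j, i < j → j ≤ n → w i ≠ w j)
    (hop : ∃ l i, i + l < n ∧ (w (i + 1)).1 - (w i).1 = (w (i + l)).1 - (w (i + l + 1)).1 ∧
      (w (i + 1)).2 - (w i).2 = (w (i + l)).2 - (w (i + l + 1)).2) :
    ∃ m : ℤ, 2 ≤ m ∧ ∃ g, Iso g ∧ ∀ q, InC m q → ∃ i ≤ n, g q = w i := by
  classical
  obtain ⟨i, hl, e1, e2⟩ := Nat.find_spec hop
  have hmin : ∀ l' < Nat.find hop, ∀ i, i + l' < n →
      ¬ ((w (i + 1)).1 - (w i).1 = (w (i + l')).1 - (w (i + l' + 1)).1 ∧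
      (w (i + 1)).2 - (w i).2 = (w (i + l')).2 - (w (i + l' + 1)).2) :=
    fun l' h i hi hh => Nat.find_min hop h ⟨i, hi, hh⟩
  generalize Nat.find hop = l at hl e1 e2 hmin
  clear hop
  have hil : i < n := by omega
  have hl2 : 2 ≤ l := by
    by_contra hlt
    have : l = 0 ∨ l = 1 := by omega
    rcases this with h | h
    · have a0 := (adj_iff _ _).mp (hA i hil)
      rw [h] at e1 e2; simp only [add_zero] at e1 e2; omega
    · rw [h] at e1 e2
      exact hinj i (i + 1 + 1) (by omega) (by omega) (Prod.ext (by omega) (by omega))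
  obtain ⟨dx, hdx⟩ : ∃ dx, dx = (w (i + 1)).1 - (w i).1 := ⟨_, rfl⟩
  obtain ⟨dy, hdy⟩ : ∃ dy, dy = (w (i + 1)).2 - (w i).2 := ⟨_, rfl⟩
  have perp : ∀ k, k + 1 < l → ∀ ex ey, ex = (w (i + 1 + k + 1)).1 - (w (i + 1 + k)).1 →
      ey = (w (i + 1 + k + 1)).2 - (w (i + 1 + k)).2 →
      (ex = 0 ∧ dy = 0 ∧ (ey = 1 ∨ ey = -1) ∧ (dx = 1 ∨ dx = -1)) ∨
        (ey = 0 ∧ dx = 0 ∧ (ex = 1 ∨ ex = -1) ∧ (dy = 1 ∨ dy = -1)) := by
    intro k hk ex ey hex hey
    have h1 := hmin (1 + k) (by omega) i (by omega)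
    have h2 := hmin (l - (1 + k)) (by omega) (i + 1 + k) (by omega)
    rw [show i + 1 + k + (l - (1 + k)) = i + l by omega] at h2
    rw [← add_assoc] at h1
    apply U_perp
    · rw [hdx, hdy]; exact adj_U (hA i hil)
    · rw [hex, hey]; exact adj_U (hA _ (by omega))
    · rintro ⟨h3, h4⟩
      exact h1 ⟨by linarith, by linarith⟩
    · rintro ⟨h3, h4⟩
      exact h2 ⟨by linarith, by linarith⟩
  obtain ⟨ex, hex⟩ : ∃ ex, ex = (w (i + 1 + 1)).1 - (w (i + 1)).1 := ⟨_, rfl⟩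
  obtain ⟨ey, hey⟩ : ∃ ey, ey = (w (i + 1 + 1)).2 - (w (i + 1)).2 := ⟨_, rfl⟩
  have p1 := perp 0 (by omega) ex ey hex hey
  have line : ∀ k, k < l → (w (i + 1 + k)).1 = (w (i + 1)).1 + k * ex ∧
      (w (i + 1 + k)).2 = (w (i + 1)).2 + k * ey := by
    intro k
    induction k with
    | zero => intro _; simp
    | succ k ih =>
      intro hk
      obtain ⟨h1, h2⟩ := ih (by omega)
      have pk := perp k hk _ _ rfl rfl
      have mk := hmin k (by omega) (i + 1) (by omega)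
      have := U_same p1 pk (by
        rintro ⟨h3, h4⟩
        exact mk ⟨by linarith, by linarith⟩)
      rw [show i + 1 + (k + 1) = i + 1 + k + 1 by omega]
      push_cast
      constructor <;> linarith [this.1, this.2]
  refine ⟨l, by exact_mod_cast hl2,
    fun q => ((w (i + 1)).1 + q.1 * ex - q.2 * dx, (w (i + 1)).2 + q.1 * ey - q.2 * dy), ?_, ?_⟩
  · intro p q
    unfold d2
    rcases p1 with ⟨h1, h2, h3 | h3, h4 | h4⟩ | ⟨h1, h2, h3 | h3, h4 | h4⟩ <;>
      simp only [h1, h2, h3, h4] <;> ring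
  · rintro ⟨x, y⟩ ⟨h1, h2, h3⟩
    simp only at h1 h2 h3
    obtain ⟨k, rfl⟩ := Int.eq_ofNat_of_zero_le h1
    have hk : k < l := by exact_mod_cast h2
    have lk := line k hk
    rcases h3 with rfl | ⟨rfl, h3 | h3⟩
    · exact ⟨i + 1 + k, by omega, Prod.ext (by simp [lk.1]) (by simp [lk.2])⟩
    · refine ⟨i, by omega, Prod.ext ?_ ?_⟩
      · simp only [h3]; linarith
      · simp only [h3]; linarith
    · rw [show i + 1 + k = i + l by omega] at lk
      refine ⟨i + l + 1, by omega, Prod.ext ?_ ?_⟩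
      · simp only; linarith [lk.1]
      · simp only; linarith [lk.2]

/-- a long path without opposite steps contains a long piece of a monotone path -/
lemma mono_path (K : ℕ) (w : ℕ → Cell) (hA : ∀ i < 2 * K, Adj (w i) (w (i + 1)))
    (hop : ¬ ∃ l i, i + l < 2 * K ∧
      (w (i + 1)).1 - (w i).1 = (w (i + l)).1 - (w (i + l + 1)).1 ∧
      (w (i + 1)).2 - (w i).2 = (w (i + l)).2 - (w (i + l + 1)).2) :
    ∃ a : ℤ → ℤ, a 0 = 0 ∧ (∀ t, a (t + 1) = a t ∨ a (t + 1) = a t + 1) ∧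
      ∃ g, Iso g ∧ ∀ q : Cell, q.1 = a (q.1 + q.2) → -(K : ℤ) ≤ q.1 + q.2 → q.1 + q.2 ≤ K →
        ∃ i ≤ 2 * K, g q = w i := by
  have hop' : ∀ i < 2 * K, ∀ j < 2 * K,
      ¬ ((w (i + 1)).1 - (w i).1 = (w j).1 - (w (j + 1)).1 ∧
      (w (i + 1)).2 - (w i).2 = (w j).2 - (w (j + 1)).2) := by
    intro i hi j hj hh
    apply hop
    rcases le_total i j with h | h
    · obtain ⟨l, rfl⟩ := Nat.exists_eq_add_of_le h
      exact ⟨l, i, hj, hh⟩
    · obtain ⟨l, rfl⟩ := Nat.exists_eq_add_of_le h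
      exact ⟨l, j, hi, by omega, by omega⟩
  obtain ⟨s, hs, hs'⟩ : ∃ s : ℤ, (s = 1 ∨ s = -1) ∧
      ∀ i < 2 * K, (w (i + 1)).1 - (w i).1 ≠ -s := by
    by_cases h : ∃ j < 2 * K, (w (j + 1)).1 - (w j).1 = -1
    · obtain ⟨j, hj, e⟩ := h
      refine ⟨-1, Or.inr rfl, fun i hi e' => ?_⟩
      have := hop' i hi j hj
      have := (adj_iff _ _).mp (hA i hi)
      have := (adj_iff _ _).mp (hA j hj)
      omega
    · push Not at h
      exact ⟨1, Or.inl rfl, h⟩
  obtain ⟨r, hr, hr'⟩ : ∃ s : ℤ, (s = 1 ∨ s = -1) ∧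
      ∀ i < 2 * K, (w (i + 1)).2 - (w i).2 ≠ -s := by
    by_cases h : ∃ j < 2 * K, (w (j + 1)).2 - (w j).2 = -1
    · obtain ⟨j, hj, e⟩ := h
      refine ⟨-1, Or.inr rfl, fun i hi e' => ?_⟩
      have := hop' i hi j hj
      have := (adj_iff _ _).mp (hA i hi)
      have := (adj_iff _ _).mp (hA j hj)
      omega
    · push Not at h
      exact ⟨1, Or.inl rfl, h⟩
  have hstep : ∀ i < 2 * K,
      (s * (w (i + 1)).1 = s * (w i).1 + 1 ∧ r * (w (i + 1)).2 = r * (w i).2) ∨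
      (s * (w (i + 1)).1 = s * (w i).1 ∧ r * (w (i + 1)).2 = r * (w i).2 + 1) := by
    intro i hi
    have := (adj_iff _ _).mp (hA i hi)
    have := hs' i hi
    have := hr' i hi
    rcases hs with rfl | rfl <;> rcases hr with rfl | rfl <;> omega
  have hsum : ∀ i ≤ 2 * K, s * (w i).1 + r * (w i).2 = s * (w 0).1 + r * (w 0).2 + i := by
    intro i
    induction i with
    | zero => simp
    | succ i ih =>
      intro hi
      have := ih (by omega)
      have := hstep i (by omega)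
      push_cast
      omega
  refine ⟨fun t => s * (w (min (t + K).toNat (2 * K))).1 - s * (w K).1, ?_, ?_,
    fun q => ((w K).1 + s * q.1, (w K).2 + r * q.2), ?_, ?_⟩
  · simp only [zero_add, Int.toNat_natCast]
    rw [min_eq_left (by omega)]; ring
  · intro t
    by_cases h : 0 ≤ t + K ∧ t + K < 2 * K
    · have := hstep (t + K).toNat (by omega)
      simp only
      rw [show min (t + 1 + K).toNat (2 * K) = (t + K).toNat + 1 by omega,
        show min (t + K).toNat (2 * K) = (t + K).toNat by omega]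
      omega
    · left
      simp only
      rw [show min (t + 1 + K).toNat (2 * K) = min (t + K).toNat (2 * K) by omega]
  · intro p q
    unfold d2
    rcases hs with rfl | rfl <;> rcases hr with rfl | rfl <;> ring
  · intro q h1 h2 h3
    simp only at h1
    rw [show min (q.1 + q.2 + K).toNat (2 * K) = (q.1 + q.2 + K).toNat by omega] at h1
    refine ⟨(q.1 + q.2 + K).toNat, by omega, ?_⟩
    have e1 := hsum (q.1 + q.2 + K).toNat (by omega)
    have e2 := hsum K (by omega)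
    have e3 : (((q.1 + q.2 + K).toNat : ℕ) : ℤ) = q.1 + q.2 + K := by omega
    rw [e3] at e1
    generalize w (q.1 + q.2 + K).toNat = z at *
    refine Prod.ext ?_ ?_ <;> simp only <;>
      rcases hs with rfl | rfl <;> rcases hr with rfl | rfl <;> omega

/-- Every bounded team that is a winner has only finitely many elements up to congruence. -/
theorem result (F : Set (Finset Cell)) (hT : IsTeam F) (hW : Winner F) :
    ∃ S : Finset (Finset Cell), ∀ P ∈ F, ∃ Q ∈ S, Cong P Q := by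
  obtain ⟨hF, hanti⟩ := hT
  obtain ⟨K, hK⟩ := stair_unif hF hW
  have hdiam : ∀ P ∈ F, ∀ c ∈ P, ∀ d ∈ P, |d.1 - c.1| ≤ 2 * K ∧ |d.2 - c.2| ≤ 2 * K := by
    intro P hP c hc d hd
    obtain ⟨n, w, h0, hn, hw, hA, hinj⟩ := exists_path (hF P hP) hc hd
    have hnK : n ≤ 2 * K := by
      by_contra hlt
      have hno : ∀ Q ∈ F, ∀ g, Iso g → ¬ ∀ p ∈ Q, ∃ i ≤ 2 * K, g p = w i := by
        intro Q hQ g hg hh
        have hsub : Q.image g ⊆ P.erase (w n) := by
          intro x hx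
          obtain ⟨p, hp, rfl⟩ := Finset.mem_image.mp hx
          obtain ⟨i, hi, e⟩ := hh p hp
          rw [e]
          exact Finset.mem_erase.mpr ⟨hinj i n (by omega) le_rfl, hw i (by omega)⟩
        obtain ⟨g', hg', e⟩ := hanti Q hQ P hP ⟨g, hg, hsub.trans (Finset.erase_subset _ _)⟩
        have c1 := Finset.card_le_card hsub
        rw [Finset.card_image_of_injective _ (iso_inj hg)] at c1
        have c2 := Finset.card_erase_lt_of_mem (hw n le_rfl)
        have c3 := Finset.card_image_of_injective Q (iso_inj hg')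
        rw [e] at c3
        omega
      by_cases hop : ∃ l i, i + l < 2 * K ∧
          (w (i + 1)).1 - (w i).1 = (w (i + l)).1 - (w (i + l + 1)).1 ∧
          (w (i + 1)).2 - (w i).2 = (w (i + l)).2 - (w (i + l + 1)).2
      · obtain ⟨m, hm, g, hg, hC⟩ := uturn (2 * K) w (fun i hi => hA i (by omega))
          (fun i j hij hj => hinj i j hij (by omega)) hop
        obtain ⟨Q, hQ, f, hf, hQC⟩ := ushape hF hW m hm
        exact hno Q hQ _ (iso_comp hg hf) (fun p hp => hC _ (hQC p hp))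
      · obtain ⟨a, ha0, ha, g, hg, hM⟩ := mono_path K w (fun i hi => hA i (by omega)) hop
        obtain ⟨Q, hQ, f, hf, hQM⟩ := hK a ha0 ha
        exact hno Q hQ _ (iso_comp hg hf)
          (fun p hp => hM _ (hQM p hp).1 (hQM p hp).2.1 (hQM p hp).2.2)
    have hb : ∀ i ≤ n, |(w i).1 - c.1| ≤ i ∧ |(w i).2 - c.2| ≤ i := by
      intro i
      induction i with
      | zero => intro _; simp [h0]
      | succ i ih =>
        intro hi
        have h1 := ih (by omega)
        have h2 := (adj_iff _ _).mp (hA i (by omega))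
        rw [abs_le, abs_le] at h1 ⊢
        push_cast
        omega
    have := hb n le_rfl
    rw [hn] at this
    have h2 : (n : ℤ) ≤ 2 * K := by exact_mod_cast hnK
    exact ⟨this.1.trans h2, this.2.trans h2⟩
  refine ⟨(Finset.Icc (-(2 * K : ℤ)) (2 * K) ×ˢ Finset.Icc (-(2 * K : ℤ)) (2 * K)).powerset,
    fun P hP => ?_⟩
  obtain ⟨c, hc⟩ := (hF P hP).1
  refine ⟨P.image (fun p => (p.1 - c.1, p.2 - c.2)), ?_, _, ?_, rfl⟩
  · rw [Finset.mem_powerset]
    intro x hx
    obtain ⟨p, hp, rfl⟩ := Finset.mem_image.mp hx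
    have := hdiam P hP c hc p hp
    rw [abs_le, abs_le] at this
    simp only [Finset.mem_product, Finset.mem_Icc]
    exact this
  · intro p q
    unfold d2; ring

end Pool.Agent.Results.MP_0f5321_co.No
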